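import Pool.Agent.W537.TT.Tate

/-!
# The transcendence degree of the periods of a K3 surface, all degrees

Let `X` be a K3 surface over the field of algebraic numbers, `T` the transcendental part of
`H^2(X)(1)` and `C` the period matrix of `T`. The period matrix `β` of the total cohomology `H^*(X)` is
the block matrix with the blocks `(2 π i) C` (the transcendental part of `H^2`), `2 π i` (for a basis
of the Neron-Severi group), `1` (for `H^0`) and `(2 π i)^2` (for `H^4`). More generally we consider the
period matrix of any sum of a Tate twist of `T` and of Tate motives, not all of the twists being
trivial; it is called `twisted T a e`. (For `X`: `a = 1`, and `e` takes the values `0`, `1`, `2`.)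

Suppose that the algebra `E` of the endomorphisms of the Hodge structure `T` is a totally real field
(for instance `ℚ`), and that the dimension `m` of `T` over `E` is not `5`. The motivic Galois group of
`X` is the Mumford-Tate group (André), and its dimension is one more than the dimension of the
Mumford-Tate group of `T`. We show that the conjecture of Grothendieck for `X`, that is

  the transcendence degree of the field generated by the entries of `β` is `dim G_mod(X)`,

holds if and only if

* the Zariski closure of the point `β` over the algebraic numbers is a torsor (more exactly: if
  `x`, `y`, `z` are invertible matrices in the closure, then `x y⁻¹ z` is in the closure),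
* the de Rham-Betti classes with algebraic coefficients in the exterior powers of `T` are
  combinations of Hodge classes, and
* the de Rham-Betti realization of `T` with algebraic coefficients is semisimple.

The last two conditions are known theorems (Kuga-Satake construction of Deligne and André and the
theorem of Wüstholz). Equivalently, the space of the logarithmic derivatives `β⁻¹ D(β)`, for all
derivations `D` of the field of complex numbers, is spanned by matrices with algebraic entries.

The hypotheses:

* `HodgeDeRham`: Hodge classes on the powers of `T` are de Rham classes (Deligne, André);
* `Zarhin`: the Lie algebra of the Hodge group of `T` consists of the skew `E`-linear maps;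
* `SphereProperty j` for `j ≥ 3`, `j ≠ 5`: a reductive Lie algebra of skew matrices of size `j` which
  has no invariant alternating forms of degrees `0 < i < j` contains all skew matrices (Kostant).

The proof. If the closure of `β` is a torsor, the space `L` of the logarithmic derivatives of `β` is
a Lie algebra defined over the algebraic numbers (Nullstellensatz). Its projection to the matrices of
trace zero is the space of the logarithmic derivatives of `C`, and is the Lie algebra `h` of the Hodge
group of `T`, by the argument with the Casimir element of degree four. As `h` is perfect, `L` contains
`h`; as `2 π i` is transcendental, `L` is larger than `h`.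
-/

namespace Pool.Agent.Results.MP_caab05_ag.KThreeSurfacesDegree

open Pool.Agent.W537.KT Pool.Agent.W537.DB Pool.Agent.W537.TT

/-- Grothendieck's conjecture on the transcendence degree for a K3 surface is equivalent to the
property that the closure of the period matrix is a torsor, together with two known theorems. -/
theorem result {ι : Type} [Fintype ι] [DecidableEq ι] {κ : Type} [Fintype κ] [DecidableEq κ]
    (T : K3Motive ι) (hD : T.HodgeDeRham) (hZ : T.Zarhin)
    (hW : ∀ j, 3 ≤ j → j ≠ 5 → SphereProperty j)
    (P : Matrix ι ι ℚ) (hP : T.RealMultiplication P) (m : ℕ)
    (hm : Fintype.card ι = m * (minpoly ℚ P).natDegree) (h5 : m ≠ 5)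
    (a : ℤ) (e : κ → ℤ) (hae : a ≠ 0 ∨ ∃ j, e j ≠ 0) :
    List.TFAE [
      Algebra.trdeg ℚ (fld (vc (twisted T a e))) =
        ((Module.finrank ℂ (mumfordTate T) + 1 : ℕ) : Cardinal),
      IsTorsor (twisted T a e) ∧ T.KugaSatake Qb ∧ T.Semisimple Qb,
      AlgSpan (logSpace (twisted T a e)) ∧ T.KugaSatake Qb ∧ T.Semisimple Qb] := by
  have h12 := tate_iff hD hZ hW hP hm h5 a e hae
  tfae_have 1 ↔ 2 := h12
  tfae_have 2 ↔ 3 := by rw [torsor_iff (twisted_unit T a e)]
  tfae_finish

end Pool.Agent.Results.MP_caab05_ag.KThreeSurfacesDegree
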