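import Pool.Agent.W519.Q.Fin

/-!
# Relations between the periods of abelian varieties with multiplication by an abelian CM field `L`
# whose homology has rank two over `L`

Let `L` be a CM field which is abelian over the rational numbers, for example a cyclotomic field. We
consider the abelian varieties `A` over the field of algebraic numbers with multiplication by `L`
such that `H_1(A, ℚ) = L ^ 2`, for example the new part of the Jacobian of the curve
`y ^ n = x ^ a * (x - 1) ^ b * (x - t) ^ c`, whose periods are the values at `t` of hypergeometric
functions. We assume that `L` is the ring of all `L`-linear endomorphisms of `A`, or that `A` is
isogenous to the square of an abelian variety with complex multiplication by `L`.

A relation between the periods of a product `X` of such abelian varieties that comes from a Hodge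
class in a tensor power `H^1(X, ℚ)^{⊗ n}(w)` says that this class is a de Rham-Betti class: it is
rational both in the singular and in the algebraic de Rham cohomology. We prove: if the de
Rham-Betti classes of degree two on the products of two such abelian varieties are Hodge classes,
then all the de Rham-Betti classes in all tensor powers for all finite products are Hodge classes.
The homology of the simple `A` is assumed to be semisimple as a de Rham-Betti object. For the
periods of abelian varieties, these assumptions are satisfied by the theorem of Wüstholz.

The proof: the logarithmic derivatives of the period matrices, for the derivations of the complex
numbers over the algebraic numbers, satisfy the linear equations which say that they kill the given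
class. The solutions of these equations form a Lie algebra over the field of algebraic numbers,
which is stable under the Galois group. By the degree two statement it has no invariant line in the
two-dimensional space which belongs to a simple `A` and an embedding of `L`, so its traceless part
is a subdirect product of Lie algebras `sl_2`, and by Goursat's lemma it is determined by
isomorphisms between pairs of these spaces. Such an isomorphism gives a relation between the period
matrices of `A` and of `A'`, up to a scalar factor. The square of this factor is a monomial in
periods of CM type. The positivity of the polarizations gives a congruence modulo two between the
Hodge types, so that the factor itself is a quotient of periods of CM types `Φ` and `Ψ` of `L`, up to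
an algebraic number, and after a twist by this quotient one has a de Rham-Betti class of degree two.
So the isomorphism respects the Hodge structures, and the traceless part of the Hodge structure
belongs to the Lie algebra. The determinants are treated with the theorem on monomials in the
periods of abelian varieties with complex multiplication by abelian fields.
-/

namespace Pool.Agent.Results.MP_caab05_ag.RankTwoMultiplication

open NumberField Pool.Agent.W537.PC Pool.Agent.W519.Q

/-- Let `L` be a CM field, abelian over the rational numbers, and `P` a semisimple rank two period
system over `L`. The de Rham-Betti classes of `H^1(X, ℚ)^{⊗ n}(w)` are Hodge classes for all finite
products `X` of good abelian varieties, all `n` and all `w`, if and only if this is so for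
`n = 2`, `w = 1` and the products of two good abelian varieties. -/
theorem result (L : Type) [Field L] [NumberField L] [IsCMField L] (hL : IsAbelian L)
    (P : PeriodSystem L) (hP : Semisimple P) : AllDegrees P ↔ DegreeTwo P :=
  all_iff_two hL P hP

end Pool.Agent.Results.MP_caab05_ag.RankTwoMultiplication
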