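import Mathlib
import Pool.Agent.W516.DRDefs
import Pool.Agent.W516.K3.Main
import Pool.Agent.W516.K3.Main2
import Pool.Agent.W516.KU.Defs2
import Pool.Agent.W516.BQ.Defs
import Pool.Agent.W516.BQ.Final

/-!
# De Rham-Betti classes on abelian varieties of signature (1, n - 1)

Let `A` be an abelian variety over the field `K` of algebraic numbers, of even dimension
`n = 2m ≥ 4`, whose endomorphism algebra is an imaginary quadratic field `E = k(δ)`, `δ² = -d`,
acting on the tangent space with signature `(1, n - 1)`: the general abelian variety of a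
Shimura variety of `U(1, n - 1)`.  Examples are the Jacobians of the general curves
`y³ = f(x)`, `deg f = 6`, of genus four (`E = ℚ(√-3)`, `n = 4`) and the Prym varieties and the new
parts of the Jacobians of the other families of Deligne and Mostow for imaginary quadratic fields
(`n = 6`, `n = 10`).  We prove that all de Rham-Betti classes on all powers of `A` are
polynomials in divisor classes.  So they are algebraic: all the polynomial relations between
the periods of `A` which are given by rational (Betti) tensors come from algebraic cycles.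

In the Lean statement `W = H_1(A)` with the polarization `ω`, `η` is a basis of `H^1_dR(A)`,
whose elements are linear maps `W → ℂ` by integration, and `τ = 2πi`.  The signature of the real
symmetric form `ω (δ u, v)` is `(2, 2n - 2)`.  Four known theorems are hypotheses:

* `hss`, `hend`: the theorem of Wüstholz for `A`;
* `hΛ`: the theorem of Wüstholz for the abelian variety `B` with
  `H_1(B) = Λ^m_E H_1(A) ⊗_E H_1(C)^{⊗ (1 - m)}`, where `C` is an elliptic curve with complex
  multiplication by `E`.  The forms in `hΛ` are the `E`-linear endomorphisms of `Λ^m_E H_1(A)`,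
  which are endomorphisms of `H_1(B)`;
* `hdet`: the theorem of Chudnovsky on the periods of `C`, because `Λ^n_E H_1(A)` is
  `H_1(C)^{⊗ (n - 2)}` up to a Tate twist.

The proof: let `g` be the Lie algebra of the real endomorphisms of `W` annihilating the
de Rham-Betti classes.  It is irreducible, reductive and contains the real hyperbolic parts of its
elements.  By a Perron-Frobenius argument it contains a nonzero hyperbolic element, and the
grading defined by this element shows that `g` contains the special unitary Lie algebra or preserves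
a real form of `W` up to the center; the volume form of the real form contradicts `hΛ`.
-/

namespace Pool.Agent.Results.MP_caab05_ag.SignatureOneAbelianVarieties

open Module TensorProduct Pool.Agent.H204R3.SP Pool.Agent.H204R3.GP Pool.Agent.W516.DR
  Pool.Agent.W516.K3 Pool.Agent.W516.KU Pool.Agent.W516.BQ

/-- De Rham-Betti classes on the powers of an abelian variety of signature `(1, n - 1)`. -/
theorem result {k K : Type} [Field k] [CharZero k] [Field K] [IsAlgClosed K] [CharZero K]
    [Algebra k K] [Algebra k ℂ] [Algebra K ℂ] [IsScalarTower k K ℂ] [Algebra k ℝ]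
    [IsScalarTower k ℝ ℂ]
    -- the homology of `A` with a polarization
    {W : Type} [AddCommGroup W] [Module k W] [FiniteDimensional k W]
    {m : ℕ} (hm : 2 ≤ m) (hn : finrank k W = 4 * m)
    (ω : W →ₗ[k] W →ₗ[k] k) (halt : ∀ v, ω v v = 0) (hnd : ∀ u, (∀ v, ω u v = 0) → u = 0)
    -- the multiplication by an imaginary quadratic field
    (δ : W →ₗ[k] W) (d : k) (hd : 0 < algebraMap k ℝ d) (hδδ : ∀ u, δ (δ u) = -(d • u))
    (hωδ : ∀ u v, ω (δ u) v = -ω u (δ v)) (hsig : SignatureTwo (bx ℝ (ω ∘ₗ δ)))
    -- the de Rham cohomology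
    {ν : Type} [Fintype ν] [DecidableEq ν] (η : Basis ν ℂ (W →ₗ[k] ℂ)) (τ : ℂ) (hτ : τ ≠ 0)
    (hω : IsDeRhamBettiBilinear K η τ ω) (hδ : IsDeRhamBettiEnd K η δ)
    -- the theorem of Wüstholz for `A`
    (hss : DeRhamBettiSemisimple K η)
    (hend : ∀ P : W →ₗ[k] W, IsDeRhamBettiEnd K η P → ∃ a c : k, ∀ u, P u = a • u + c • δ u)
    -- the theorem of Wüstholz for `B`
    (hΛ : ∀ φ : MultilinearMap k (fun _ : Fin m × Fin 2 => W) k,
      IsDeRhamBettiForm K η τ m φ → IsSesqui δ φ → ∀ x : W →ₗ[k] W,
      (∀ u v, ω (x u) v + ω u (x v) = 0) → (∀ u, x (δ u) = δ (x u)) → Kills x φ)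
    -- the theorem of Chudnovsky
    (hdet : ∀ φ : MultilinearMap k (fun _ : Fin m × Fin 2 => W) k,
      IsDeRhamBettiForm K η τ m φ → IsDetForm δ φ → φ = 0)
    -- a de Rham-Betti class on a power of `A`
    (r : ℕ) (φ : MultilinearMap k (fun _ : Fin r × Fin 2 => W) k)
    (hφ : IsDeRhamBettiForm K η τ r φ) :
    φ ∈ Submodule.span k {ψ | PairProdB ![ω, ω ∘ₗ δ] ψ} := by
  have hsig' : WittTwo (bx ℝ (ω ∘ₗ δ)) := by
    obtain ⟨h1, h2⟩ := indef_of_signature _ hsig (by
      rw [Module.finrank_baseChange, hn]
      omega)
    exact ⟨h1, h2, witt_of_signature _ hsig⟩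
  exact drb_abelian (K := K) η hτ ω halt hnd δ d hd hδδ hωδ hsig' hω hδ hss hend hm hn hΛ hdet r φ
    hφ

end Pool.Agent.Results.MP_caab05_ag.SignatureOneAbelianVarieties
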